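import Mathlib
import Pool.Agent.Helper332.CPB.TopDefs

/-!
# One step of the construction of a locally compact scattered topology on a well-ordered set

A set `Z` of points below `α` is chosen which is relatively open and closed, and splits countably
many sets without compact closure into two parts without compact closure.
-/

set_option autoImplicit false

namespace Pool.Agent.V8H79.NP

open Set

variable {K : Type} [LinearOrder K]

/-- `E` is open and closed in the space of the points below `α` -/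
def Good (U : K → Set K) (α : K) (E : Set K) : Prop :=
  ∀ a < α,
    (a ∈ E → ∃ F : Finset K, (∀ c ∈ F, c < a) ∧ ∀ y ∈ U a, y ∉ E → ∃ c ∈ F, y ∈ U c) ∧
    (a ∉ E → ∃ F : Finset K, (∀ c ∈ F, c < a) ∧ ∀ y ∈ U a, y ∈ E → ∃ c ∈ F, y ∈ U c)

/-- the axioms of a system of neighbourhoods for the points below `α` -/
def SysBelow (U : K → Set K) (α : K) : Prop :=
  (∀ a < α, a ∈ U a) ∧ (∀ a < α, ∀ y ∈ U a, y ≤ a) ∧ ∀ a < α, Good U a (U a)

/-- `S` is not covered by finitely many of the sets `U c`, `c < α` -/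
def Big (U : K → Set K) (α : K) (S : Set K) : Prop :=
  ∀ F : Finset K, (∀ c ∈ F, c < α) → ∃ y ∈ S, ∀ c ∈ F, y ∉ U c

theorem Big.mono {U : K → Set K} {α : K} {S T : Set K} (h : Big U α S) (hST : S ⊆ T) :
    Big U α T := fun F hF => by
  obtain ⟨y, hy, h1⟩ := h F hF
  exact ⟨y, hST hy, h1⟩

theorem good_U {U : K → Set K} {α b : K} (h : SysBelow U α) (hb : b < α) : Good U α (U b) := by
  classical
  intro a ha
  rcases lt_trichotomy a b with h1 | h1 | h1
  · exact h.2.2 b hb a h1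
  · subst h1
    refine ⟨fun _ => ⟨∅, by simp, fun y hy hy' => (hy' hy).elim⟩, fun h2 => (h2 (h.1 a ha)).elim⟩
  · have h2 : a ∉ U b := fun h3 => absurd (h.2.1 b hb a h3) (not_le.2 h1)
    refine ⟨fun h3 => (h2 h3).elim, fun _ => ⟨{b}, by simpa using h1, fun y _ hy => ⟨b, by simp, hy⟩⟩⟩

theorem good_empty (U : K → Set K) (α : K) : Good U α ∅ := by
  intro a _
  refine ⟨fun h => h.elim, fun _ => ⟨∅, by simp, fun y _ hy => hy.elim⟩⟩

theorem Good.compl {U : K → Set K} {α : K} {E : Set K} (h : Good U α E) : Good U α Eᶜ := by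
  intro a ha
  obtain ⟨h1, h2⟩ := h a ha
  refine ⟨fun h3 => ?_, fun h3 => ?_⟩
  · obtain ⟨F, hF, h4⟩ := h2 h3
    exact ⟨F, hF, fun y hy hy' => h4 y hy (not_not.1 hy')⟩
  · obtain ⟨F, hF, h4⟩ := h1 (not_not.1 h3)
    exact ⟨F, hF, fun y hy hy' => h4 y hy hy'⟩

theorem Good.union {U : K → Set K} {α : K} {E E' : Set K} (h : Good U α E) (h' : Good U α E') :
    Good U α (E ∪ E') := by
  classical
  intro a ha
  obtain ⟨h1, h2⟩ := h a ha
  obtain ⟨h1', h2'⟩ := h' a ha
  refine ⟨fun h3 => ?_, fun h3 => ?_⟩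
  · rcases h3 with h3 | h3
    · obtain ⟨F, hF, h4⟩ := h1 h3
      exact ⟨F, hF, fun y hy hy' => h4 y hy fun h5 => hy' (Or.inl h5)⟩
    · obtain ⟨F, hF, h4⟩ := h1' h3
      exact ⟨F, hF, fun y hy hy' => h4 y hy fun h5 => hy' (Or.inr h5)⟩
  · obtain ⟨F, hF, h4⟩ := h2 fun h5 => h3 (Or.inl h5)
    obtain ⟨F', hF', h4'⟩ := h2' fun h5 => h3 (Or.inr h5)
    refine ⟨F ∪ F', fun c hc => ?_, fun y hy hy' => ?_⟩
    · rcases Finset.mem_union.1 hc with hc | hc
      · exact hF c hc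
      · exact hF' c hc
    · rcases hy' with hy' | hy'
      · obtain ⟨c, hc, h6⟩ := h4 y hy hy'
        exact ⟨c, Finset.mem_union_left _ hc, h6⟩
      · obtain ⟨c, hc, h6⟩ := h4' y hy hy'
        exact ⟨c, Finset.mem_union_right _ hc, h6⟩

theorem Good.sdiff {U : K → Set K} {α : K} {E E' : Set K} (h : Good U α E) (h' : Good U α E') :
    Good U α (E \ E') := by
  have h1 := (h.compl.union h').compl
  have h2 : (Eᶜ ∪ E')ᶜ = E \ E' := by
    ext x
    simp only [mem_compl_iff, mem_union, not_or, not_not, mem_diff]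
  rwa [h2] at h1

/-- the union of the first `m` sets -/
def HH (U : K → Set K) (e : ℕ → K) (m : ℕ) : Set K := {y | ∃ i < m, y ∈ U (e i)}

theorem HH_mono {U : K → Set K} {e : ℕ → K} {m n : ℕ} (h : m ≤ n) : HH U e m ⊆ HH U e n :=
  fun _ ⟨i, hi, hy⟩ => ⟨i, hi.trans_le h, hy⟩

theorem good_HH {U : K → Set K} {α : K} (h : SysBelow U α) {e : ℕ → K} (he : ∀ i, e i < α)
    (m : ℕ) : Good U α (HH U e m) := by
  induction m with
  | zero =>
    have : HH U e 0 = ∅ := by
      ext y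
      simp [HH]
    rw [this]
    exact good_empty _ _
  | succ m ih =>
    have : HH U e (m + 1) = HH U e m ∪ U (e m) := by
      ext y
      constructor
      · rintro ⟨i, hi, hy⟩
        rcases Nat.lt_succ_iff_lt_or_eq.1 hi with hi | rfl
        · exact Or.inl ⟨i, hi, hy⟩
        · exact Or.inr hy
      · rintro (⟨i, hi, hy⟩ | hy)
        · exact ⟨i, hi.trans (Nat.lt_succ_self _), hy⟩
        · exact ⟨m, Nat.lt_succ_self _, hy⟩
    rw [this]
    exact ih.union (good_U h (he m))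

/-- The one step lemma. -/
theorem one_step {U : K → Set K} {α : K} (h : SysBelow U α) (hc : (Iio α).Countable)
    (𝒮 : ℕ → Set K) (hS : ∀ n, Big U α (𝒮 n)) (hS' : ∀ n, 𝒮 n ⊆ Iio α) :
    ∃ Z : Set K, Z ⊆ Iio α ∧ Good U α Z ∧ ∀ n, Big U α (𝒮 n ∩ Z) ∧ Big U α (𝒮 n \ Z) := by
  classical
  have hne : (Iio α).Nonempty := by
    obtain ⟨y, hy, -⟩ := hS 0 ∅ (by simp)
    exact ⟨y, hS' 0 hy⟩
  obtain ⟨e, he⟩ := hc.exists_eq_range hne
  have he1 : ∀ i, e i < α := fun i => by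
    have : e i ∈ Iio α := by
      rw [he]
      exact mem_range_self i
    exact this
  have he2 : ∀ y < α, ∃ i, e i = y := fun y hy => by
    have : y ∈ range e := by
      rw [← he]
      exact hy
    exact this
  -- a new element of `𝒮 j` outside of `HH m`, in a later `HH m'`
  have hnext : ∀ m j : ℕ, ∃ m' : ℕ, m < m' ∧ ∃ y ∈ 𝒮 j, y ∈ HH U e m' \ HH U e m := by
    intro m j
    obtain ⟨y, hy, h1⟩ := hS j ((Finset.range m).image e) (by
      intro c hc
      obtain ⟨i, -, rfl⟩ := Finset.mem_image.1 hc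
      exact he1 i)
    have h2 : y ∉ HH U e m := by
      rintro ⟨i, hi, hy'⟩
      exact h1 (e i) (Finset.mem_image.2 ⟨i, Finset.mem_range.2 hi, rfl⟩) hy'
    obtain ⟨i, hi⟩ := he2 y (hS' j hy)
    refine ⟨max (m + 1) (i + 1), by omega, y, hy, ⟨i, by omega, ?_⟩, h2⟩
    rw [hi]
    exact h.1 y (hS' j hy)
  choose nx hnx1 hnx2 using hnext
  let jj : ℕ → ℕ := fun n => (Nat.unpair (n / 2)).1
  let mm : ℕ → ℕ := fun n => Nat.rec 0 (fun k m => nx m (jj k)) n
  have hmm : ∀ n, mm (n + 1) = nx (mm n) (jj n) := fun n => rfl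
  have hlt : ∀ n, mm n < mm (n + 1) := fun n => by
    rw [hmm]
    exact hnx1 _ _
  have hmono : StrictMono mm := strictMono_nat_of_lt_succ hlt
  let Zk : ℕ → Set K := fun k => {y | ∃ n < k, n % 2 = 0 ∧ y ∈ HH U e (mm (n + 1)) \ HH U e (mm n)}
  let Z : Set K := {y | y < α ∧ ∃ n, n % 2 = 0 ∧ y ∈ HH U e (mm (n + 1)) \ HH U e (mm n)}
  have hgood : ∀ k, Good U α (Zk k) := by
    intro k
    induction k with
    | zero =>
      have : Zk 0 = ∅ := by
        ext y
        simp [Zk]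
      rw [this]
      exact good_empty _ _
    | succ k ih =>
      by_cases hk : k % 2 = 0
      · have : Zk (k + 1) = Zk k ∪ (HH U e (mm (k + 1)) \ HH U e (mm k)) := by
          ext y
          constructor
          · rintro ⟨n, hn, h1, h2⟩
            rcases Nat.lt_succ_iff_lt_or_eq.1 hn with hn | rfl
            · exact Or.inl ⟨n, hn, h1, h2⟩
            · exact Or.inr h2
          · rintro (⟨n, hn, h1, h2⟩ | h2)
            · exact ⟨n, by omega, h1, h2⟩
            · exact ⟨k, by omega, hk, h2⟩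
        rw [this]
        exact ih.union ((good_HH h he1 _).sdiff (good_HH h he1 _))
      · have : Zk (k + 1) = Zk k := by
          ext y
          constructor
          · rintro ⟨n, hn, h1, h2⟩
            rcases Nat.lt_succ_iff_lt_or_eq.1 hn with hn | rfl
            · exact ⟨n, hn, h1, h2⟩
            · exact (hk h1).elim
          · rintro ⟨n, hn, h1, h2⟩
            exact ⟨n, by omega, h1, h2⟩
        rw [this]
        exact ih
  have hloc : ∀ k, ∀ y < α, y ∈ HH U e (mm k) → (y ∈ Z ↔ y ∈ Zk k) := by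
    intro k y hy hyk
    constructor
    · rintro ⟨-, n, hn, h1, h2⟩
      refine ⟨n, ?_, hn, h1, h2⟩
      by_contra hc
      exact h2 (HH_mono (hmono.monotone (not_lt.1 hc)) hyk)
    · rintro ⟨n, -, hn, h1⟩
      exact ⟨hy, n, hn, h1⟩
  have hid : ∀ k, k ≤ mm k := hmono.id_le
  refine ⟨Z, fun y hy => hy.1, ?_, ?_⟩
  · intro a ha
    obtain ⟨i, hi⟩ := he2 a ha
    have h1 : ∀ y ∈ U a, y < α ∧ y ∈ HH U e (mm (i + 1)) := fun y hy =>
      ⟨(h.2.1 a ha y hy).trans_lt ha, i, (Nat.lt_succ_self i).trans_le (hid _), by rwa [hi]⟩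
    obtain ⟨g1, g2⟩ := hgood (i + 1) a ha
    have ha' := h1 a (h.1 a ha)
    refine ⟨fun h2 => ?_, fun h2 => ?_⟩
    · obtain ⟨F, hF, h3⟩ := g1 ((hloc _ a ha'.1 ha'.2).1 h2)
      exact ⟨F, hF, fun y hy hy' => h3 y hy fun h4 =>
        hy' ((hloc _ y (h1 y hy).1 (h1 y hy).2).2 h4)⟩
    · obtain ⟨F, hF, h3⟩ := g2 fun h4 => h2 ((hloc _ a ha'.1 ha'.2).2 h4)
      exact ⟨F, hF, fun y hy hy' => h3 y hy
        ((hloc _ y (h1 y hy).1 (h1 y hy).2).1 hy')⟩
  · intro j
    have key : ∀ (r : ℕ), r < 2 → ∀ F : Finset K, (∀ c ∈ F, c < α) →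
        ∃ n, n % 2 = r ∧ ∃ y ∈ 𝒮 j, y ∈ HH U e (mm (n + 1)) \ HH U e (mm n) ∧ ∀ c ∈ F, y ∉ U c := by
      intro r hr F hF
      have h1 : ∃ N : ℕ, ∀ c ∈ F, ∃ i < N, e i = c := by
        choose! idx hidx using he2
        refine ⟨F.sup idx + 1, fun c hc => ⟨idx c, ?_, hidx c (hF c hc)⟩⟩
        exact Nat.lt_succ_of_le (Finset.le_sup hc)
      obtain ⟨N, hN⟩ := h1
      let n : ℕ := 2 * Nat.pair j N + r
      have hn2 : n / 2 = Nat.pair j N := by omega
      have hnj : jj n = j := by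
        change (Nat.unpair (n / 2)).1 = j
        rw [hn2, Nat.unpair_pair]
      have hnN : N ≤ n := by
        have := Nat.right_le_pair j N
        omega
      obtain ⟨y, hy, h2⟩ := hnx2 (mm n) (jj n)
      rw [hnj] at hy
      refine ⟨n, by omega, y, hy, ?_, fun c hc hyc => ?_⟩
      · rw [hmm]
        exact h2
      · obtain ⟨i, hi, rfl⟩ := hN c hc
        exact h2.2 ⟨i, hi.trans_le (hnN.trans (hid n)), hyc⟩
    constructor
    · intro F hF
      obtain ⟨n, hn, y, hy, h1, h2⟩ := key 0 (by norm_num) F hF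
      exact ⟨y, ⟨hy, hS' j hy, n, hn, h1⟩, h2⟩
    · intro F hF
      obtain ⟨n, hn, y, hy, h1, h2⟩ := key 1 (by norm_num) F hF
      refine ⟨y, ⟨hy, ?_⟩, h2⟩
      rintro ⟨-, n', hn', h3, h4⟩
      rcases lt_trichotomy n n' with h5 | h5 | h5
      · exact h4 (HH_mono (hmono.monotone h5) h1.1)
      · omega
      · exact h1.2 (HH_mono (hmono.monotone h5) h3)

/-- The one step lemma for a countable family of sets, some of which may be covered. -/
theorem one_step' {U : K → Set K} {α : K} (h : SysBelow U α) (hc : (Iio α).Countable)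
    (𝒮 : Set (Set K)) (h𝒮 : 𝒮.Countable) (hS : ∀ S ∈ 𝒮, Big U α S) (hS' : ∀ S ∈ 𝒮, S ⊆ Iio α) :
    ∃ Z : Set K, Z ⊆ Iio α ∧ Good U α Z ∧ ∀ S ∈ 𝒮, Big U α (S ∩ Z) ∧ Big U α (S \ Z) := by
  rcases 𝒮.eq_empty_or_nonempty with rfl | hne
  · exact ⟨∅, empty_subset _, good_empty _ _, by simp⟩
  · obtain ⟨f, rfl⟩ := h𝒮.exists_eq_range hne
    obtain ⟨Z, h1, h2, h3⟩ := one_step h hc f (fun n => hS _ (mem_range_self n))
      (fun n => hS' _ (mem_range_self n))
    refine ⟨Z, h1, h2, ?_⟩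
    rintro _ ⟨n, rfl⟩
    exact h3 n

end Pool.Agent.V8H79.NP
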