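import Mathlib
import Pool.Agent.Helper292.ForceCH
import Pool.Agent.Helper332.CPB.TopDefs
import Pool.Agent.Helper332.CPB.P_t2_Sp
import Pool.Agent.Helper332.CPB.P_lc_Sp
import Pool.Agent.V8H79.NP.Step

/-!
# The recursion along `ω₁`

From a diamond sequence `A` (given as sets `A a ⊆ Iio a`) a system of neighbourhoods on `ω₁` is
constructed such that every set of points which is not covered by finitely many neighbourhoods and
is one of the `A ξ` has all later points in its closure.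
-/

set_option autoImplicit false

namespace Pool.Agent.V8H79.NP

open Set Topology
open Pool.Agent.Helper292.ForceCH (Om ub lt_ub ub_le)
open Pool.Agent.Helper332.CPBTop

theorem cnt_Iio (a : Om) : (Iio a).Countable :=
  Set.countable_coe_iff.1 (Pool.Agent.Helper292.ForceCH.countable_Iio a)

theorem cnt_Iic (a : Om) : (Iic a).Countable := by
  have : Iic a = insert a (Iio a) := by
    ext x
    simp [le_iff_eq_or_lt]
  rw [this]
  exact (cnt_Iio a).insert _

/-- what is required of the set chosen in the step `α` -/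
def Req (A : Om → Set Om) (U : Om → Set Om) (α : Om) (Z : Set Om) : Prop :=
  Z ⊆ Iio α ∧ Good U α Z ∧
    ∀ ξ ≤ α, A ξ ⊆ Iio α → Big U α (A ξ) → Big U α (A ξ ∩ Z) ∧ Big U α (A ξ \ Z)

theorem exists_req (A : Om → Set Om) {U : Om → Set Om} {α : Om} (h : SysBelow U α) :
    ∃ Z, Req A U α Z := by
  obtain ⟨Z, h1, h2, h3⟩ := one_step' h (cnt_Iio α)
    (A '' {ξ | ξ ≤ α ∧ A ξ ⊆ Iio α ∧ Big U α (A ξ)})
    (((cnt_Iic α).mono fun ξ hξ => hξ.1).image _)
    (by rintro _ ⟨ξ, hξ, rfl⟩; exact hξ.2.2) (by rintro _ ⟨ξ, hξ, rfl⟩; exact hξ.2.1)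
  exact ⟨Z, h1, h2, fun ξ hξ hs hb => h3 _ ⟨ξ, ⟨hξ, hs, hb⟩, rfl⟩⟩

theorem good_congr {U V : Om → Set Om} {α : Om} {E : Set Om} (h : ∀ b < α, U b = V b) :
    Good U α E ↔ Good V α E := by
  have key : ∀ U V : Om → Set Om, (∀ b < α, U b = V b) → Good U α E → Good V α E := by
    intro U V h hg a ha
    obtain ⟨h1, h2⟩ := hg a ha
    refine ⟨fun h3 => ?_, fun h3 => ?_⟩
    · obtain ⟨F, hF, h4⟩ := h1 h3
      refine ⟨F, hF, fun y hy hy' => ?_⟩
      obtain ⟨c, hc, h5⟩ := h4 y (by rwa [h a ha]) hy'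
      exact ⟨c, hc, by rwa [← h c ((hF c hc).trans ha)]⟩
    · obtain ⟨F, hF, h4⟩ := h2 h3
      refine ⟨F, hF, fun y hy hy' => ?_⟩
      obtain ⟨c, hc, h5⟩ := h4 y (by rwa [h a ha]) hy'
      exact ⟨c, hc, by rwa [← h c ((hF c hc).trans ha)]⟩
  exact ⟨key U V h, key V U fun b hb => (h b hb).symm⟩

theorem big_congr {U V : Om → Set Om} {α : Om} {S : Set Om} (h : ∀ b < α, U b = V b) :
    Big U α S ↔ Big V α S := by
  have key : ∀ U V : Om → Set Om, (∀ b < α, U b = V b) → Big U α S → Big V α S := by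
    intro U V h hg F hF
    obtain ⟨y, hy, h1⟩ := hg F hF
    exact ⟨y, hy, fun c hc => by rw [← h c (hF c hc)]; exact h1 c hc⟩
  exact ⟨key U V h, key V U fun b hb => (h b hb).symm⟩

theorem req_congr {A : Om → Set Om} {U V : Om → Set Om} {α : Om} {Z : Set Om}
    (h : ∀ b < α, U b = V b) : Req A U α Z ↔ Req A V α Z := by
  unfold Req
  simp only [good_congr h, big_congr h]

open Classical in
/-- the recursion -/
noncomputable def mkU (A : Om → Set Om) : Om → Set Om :=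
  (wellFounded_lt (α := Om)).fix fun α rec =>
    if h : ∃ Z, Req A (fun b => if hb : b < α then rec b hb else ∅) α Z then
      insert α h.choose else {α}

open Classical in
theorem mkU_eq (A : Om → Set Om) (α : Om) :
    mkU A α = if h : ∃ Z, Req A (fun b => if b < α then mkU A b else ∅) α Z then
      insert α h.choose else {α} := by
  rw [mkU, WellFounded.fix_eq]
  rfl

theorem mkU_spec (A : Om → Set Om) (α : Om) (h : SysBelow (mkU A) α) :
    ∃ Z, Req A (mkU A) α Z ∧ mkU A α = insert α Z := by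
  classical
  have h0 : ∀ b < α, (fun b => if b < α then mkU A b else ∅) b = mkU A b := fun b hb => by
    simp only [hb, if_true]
  obtain ⟨Z, hZ⟩ := exists_req A h
  have h1 : ∃ Z, Req A (fun b => if b < α then mkU A b else ∅) α Z := ⟨Z, (req_congr h0).2 hZ⟩
  refine ⟨h1.choose, (req_congr h0).1 h1.choose_spec, ?_⟩
  rw [mkU_eq, dif_pos h1]

theorem sysBelow_mkU (A : Om → Set Om) (α : Om) : SysBelow (mkU A) α := by
  induction α using WellFoundedLT.induction with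
  | _ α ih =>
    have h1 : ∀ a < α, ∃ Z, Req A (mkU A) a Z ∧ mkU A a = insert a Z := fun a ha =>
      mkU_spec A a (ih a ha)
    refine ⟨fun a ha => ?_, fun a ha y hy => ?_, fun a ha => ?_⟩
    · obtain ⟨Z, -, hZ⟩ := h1 a ha
      rw [hZ]
      exact mem_insert _ _
    · obtain ⟨Z, hr, hZ⟩ := h1 a ha
      rw [hZ] at hy
      rcases hy with rfl | hy
      · exact le_rfl
      · exact (hr.1 hy).le
    · obtain ⟨Z, hr, hZ⟩ := h1 a ha
      intro b hb
      have hle : ∀ y ∈ mkU A b, y ≤ b := fun y hy => by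
        obtain ⟨Z', hr', hZ'⟩ := h1 b (hb.trans ha)
        rw [hZ'] at hy
        rcases hy with rfl | hy
        · exact le_rfl
        · exact (hr'.1 hy).le
      have h2 : ∀ y ≤ b, (y ∈ mkU A a ↔ y ∈ Z) := fun y hy => by
        rw [hZ, mem_insert_iff]
        exact or_iff_right (hy.trans_lt hb).ne
      obtain ⟨g1, g2⟩ := hr.2.1 b hb
      refine ⟨fun h3 => ?_, fun h3 => ?_⟩
      · obtain ⟨F, hF, h4⟩ := g1 ((h2 b le_rfl).1 h3)
        exact ⟨F, hF, fun y hy hy' => h4 y hy fun h5 => hy' ((h2 y (hle y hy)).2 h5)⟩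
      · obtain ⟨F, hF, h4⟩ := g2 fun h5 => h3 ((h2 b le_rfl).2 h5)
        exact ⟨F, hF, fun y hy hy' => h4 y hy ((h2 y (hle y hy)).1 hy')⟩

theorem isSystem_mkU (A : Om → Set Om) : IsSystem (mkU A) := by
  refine ⟨fun a => ?_, fun a => ?_, fun a b hab => ?_⟩
  · obtain ⟨c, hc⟩ := exists_gt a
    exact (sysBelow_mkU A c).1 a hc
  · obtain ⟨c, hc⟩ := exists_gt a
    exact (sysBelow_mkU A c).2.1 a hc
  · obtain ⟨c, hc⟩ := exists_gt b
    obtain ⟨h1, h2⟩ := (sysBelow_mkU A c).2.2 b hc a hab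
    by_cases h : a ∈ mkU A b
    · obtain ⟨F, hF, h3⟩ := h1 h
      exact ⟨F, hF, fun _ => h3, fun h' => (h' h).elim⟩
    · obtain ⟨F, hF, h3⟩ := h2 h
      exact ⟨F, hF, fun h' => (h h').elim, fun _ => h3⟩

theorem split_mkU (A : Om → Set Om) (α ξ : Om) (hξ : ξ ≤ α) (hs : A ξ ⊆ Iio α)
    (hb : Big (mkU A) α (A ξ)) :
    Big (mkU A) α (A ξ ∩ mkU A α) ∧ Big (mkU A) α (A ξ \ mkU A α) := by
  obtain ⟨Z, hr, hZ⟩ := mkU_spec A α (sysBelow_mkU A α)
  obtain ⟨h1, h2⟩ := hr.2.2 ξ hξ hs hb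
  refine ⟨h1.mono fun y hy => ⟨hy.1, ?_⟩, h2.mono fun y hy => ⟨hy.1, ?_⟩⟩
  · rw [hZ]
    exact mem_insert_of_mem _ hy.2
  · rw [hZ]
    rintro (rfl | h3)
    · exact (mem_Iio.1 (hs hy.1)).false
    · exact hy.2 h3

/-- The sets taken care of stay big. -/
theorem big_mkU (A : Om → Set Om) (δ : Om) (hs : A δ ⊆ Iio δ) (hb : Big (mkU A) δ (A δ)) (β : Om)
    (hβ : δ ≤ β) : Big (mkU A) β (A δ) := by
  classical
  induction β using WellFoundedLT.induction with
  | _ β ih =>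
    intro F hF
    by_cases hF0 : ∀ c ∈ F, c < δ
    · exact hb F hF0
    · push Not at hF0
      obtain ⟨c0, hc0, hc1⟩ := hF0
      have hne : F.Nonempty := ⟨c0, hc0⟩
      let b := F.max' hne
      have hb1 : b ∈ F := F.max'_mem hne
      have hb2 : δ ≤ b := hc1.trans (F.le_max' c0 hc0)
      have hb3 : b < β := hF b hb1
      have h1 := ih b hb3 hb2
      obtain ⟨y, hy, h2⟩ := (split_mkU A b δ hb2 (fun y hy => (hs hy).trans_le hb2) h1).2
        (F.erase b) (fun c hc => lt_of_le_of_ne (F.le_max' c (Finset.mem_of_mem_erase hc))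
          (Finset.ne_of_mem_erase hc))
      refine ⟨y, hy.1, fun c hc => ?_⟩
      by_cases h3 : c = b
      · rw [h3]
        exact hy.2
      · exact h2 c (Finset.mem_erase.2 ⟨h3, hc⟩)

/-- basic neighbourhoods -/
theorem nhd_basis {K : Type} [LinearOrder K] (U : K → Set K) (hU : IsSystem U) (O : Set (Sp U))
    (hO : IsOpen O) (β : K) (hβ : (β : Sp U) ∈ O) :
    ∃ F : Finset K, (∀ c ∈ F, c < β) ∧ ∀ y ∈ U β, (∀ c ∈ F, y ∉ U c) → (y : Sp U) ∈ O := by
  classical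
  obtain ⟨h1, h2, h3⟩ := hU
  induction hO with
  | basic s hs =>
    obtain ⟨a, rfl | rfl⟩ := hs
    · rcases lt_trichotomy a β with h | h | h
      · exact absurd (h2 a β hβ) (not_le.2 h)
      · subst h
        exact ⟨∅, by simp, fun y hy _ => hy⟩
      · obtain ⟨F, hF, h4, -⟩ := h3 β a h
        refine ⟨F, hF, fun y hy hy' => ?_⟩
        by_contra h5
        obtain ⟨c, hc, h6⟩ := h4 hβ y hy h5
        exact hy' c hc h6
    · rcases lt_trichotomy a β with h | h | h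
      · exact ⟨{a}, by simpa using h, fun y _ hy' => hy' a (by simp)⟩
      · subst h
        exact (hβ (h1 a)).elim
      · obtain ⟨F, hF, -, h4⟩ := h3 β a h
        refine ⟨F, hF, fun y hy hy' => ?_⟩
        intro h5
        obtain ⟨c, hc, h6⟩ := h4 hβ y hy h5
        exact hy' c hc h6
  | univ => exact ⟨∅, by simp, fun y _ _ => mem_univ _⟩
  | inter s t _ _ ihs iht =>
    obtain ⟨F, hF, h4⟩ := ihs hβ.1
    obtain ⟨F', hF', h4'⟩ := iht hβ.2
    refine ⟨F ∪ F', fun c hc => ?_, fun y hy hy' =>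
      ⟨h4 y hy fun c hc => hy' c (Finset.mem_union_left _ hc),
        h4' y hy fun c hc => hy' c (Finset.mem_union_right _ hc)⟩⟩
    rcases Finset.mem_union.1 hc with hc | hc
    · exact hF c hc
    · exact hF' c hc
  | sUnion S _ ih =>
    obtain ⟨s, hs, hβs⟩ := hβ
    obtain ⟨F, hF, h4⟩ := ih s hs hβs
    exact ⟨F, hF, fun y hy hy' => ⟨s, hs, h4 y hy hy'⟩⟩

theorem mem_closure_mkU (A : Om → Set Om) (δ : Om) (hs : A δ ⊆ Iio δ)
    (hb : Big (mkU A) δ (A δ)) (β : Om) (hβ : δ ≤ β) :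
    (β : Sp (mkU A)) ∈ closure (X := Sp (mkU A)) (A δ) := by
  refine (mem_closure_iff (X := Sp (mkU A))).2 ?_
  intro O hO hβO
  obtain ⟨F, hF, h1⟩ := nhd_basis (mkU A) (isSystem_mkU A) O hO β hβO
  have h2 := (split_mkU A β δ hβ (fun y hy => (hs hy).trans_le hβ) (big_mkU A δ hs hb β hβ)).1
  obtain ⟨y, hy, h3⟩ := h2 F hF
  exact ⟨y, h1 y hy.2 h3, hy.1⟩

/-! ### Consequences of diamond -/

/-- the form of diamond used here -/
def Guess (A : Om → Set Om) : Prop :=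
  (∀ a, A a ⊆ Iio a) ∧ ∀ (S : Set Om) (C : Om → Prop),
    ((∀ a : Om, ∃ b : Om, a < b ∧ C b) ∧
      ∀ a : Om, (∃ b, b < a) → (∀ b : Om, b < a → ∃ c : Om, (b < c ∧ c < a) ∧ C c) → C a) →
    ∃ a : Om, C a ∧ S ∩ Iio a = A a

/-- unbounded sets -/
theorem unbounded_closure {A : Om → Set Om} (hA : Guess A) (S : Set Om)
    (hS : ∀ a : Om, ∃ b ∈ S, a < b) :
    ∃ δ : Om, ∀ β : Om, δ ≤ β →
      (β : Sp (mkU A)) ∈ closure (X := Sp (mkU A)) ((S ∩ Iio δ : Set Om)) := by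
  classical
  obtain ⟨δ, ⟨⟨b0, hb0⟩, hδ⟩, hSδ⟩ := hA.2 S
    (fun a => (∃ b, b < a) ∧ ∀ b < a, ∃ c, c ∈ S ∧ b < c ∧ c < a) (by
      constructor
      · intro a
        choose g hg1 hg2 using hS
        let s : ℕ → Om := fun n => Nat.rec (g a) (fun _ x => g x) n
        have hs1 : ∀ n, s (n + 1) = g (s n) := fun n => rfl
        have hs2 : ∀ n, s n ∈ S := by
          intro n
          cases n with
          | zero => exact hg1 a
          | succ n => rw [hs1]; exact hg1 _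
        refine ⟨ub s, (hg2 a).trans (lt_ub s 0), ⟨s 0, lt_ub s 0⟩, fun b hb => ?_⟩
        obtain ⟨n, hn⟩ := ub_le s hb
        exact ⟨s (n + 1), hs2 (n + 1), hn.trans_lt (by rw [hs1]; exact hg2 _), lt_ub s (n + 1)⟩
      · intro a ha h
        refine ⟨ha, fun b hb => ?_⟩
        obtain ⟨c, ⟨h1, h2⟩, -, h3⟩ := h b hb
        obtain ⟨d, hd, h4, h5⟩ := h3 b h1
        exact ⟨d, hd, h4, h5.trans h2⟩)
  refine ⟨δ, fun β hβ => ?_⟩
  rw [hSδ]
  refine mem_closure_mkU A δ (hA.1 δ) ?_ β hβ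
  rw [← hSδ]
  intro F hF
  rcases F.eq_empty_or_nonempty with rfl | hne
  · obtain ⟨c, hc, -, h1⟩ := hδ b0 hb0
    exact ⟨c, ⟨hc, h1⟩, by simp⟩
  · obtain ⟨c, hc, h1, h2⟩ := hδ _ (hF _ (F.max'_mem hne))
    refine ⟨c, ⟨hc, h2⟩, fun d hd hcd => ?_⟩
    have h3 := (isSystem_mkU A).2.1 d c hcd
    exact absurd ((F.le_max' d hd).trans_lt h1) (not_lt.2 h3)

/-- bounded closed sets are covered by finitely many of the compact sets `U c` -/
theorem bounded_closed {A : Om → Set Om} (hA : Guess A) (S : Set Om)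
    (hS : IsClosed (X := Sp (mkU A)) S) (γ : Om) (hγ : S ⊆ Iio γ) :
    ∃ F : Finset Om, ∀ y ∈ S, ∃ c ∈ F, y ∈ mkU A c := by
  by_contra hc
  push Not at hc
  obtain ⟨δ, hδ, h1⟩ := hA.2 S (fun a => γ ≤ a) (by
    constructor
    · intro a
      obtain ⟨b, hb⟩ := exists_gt (max a γ)
      exact ⟨b, (le_max_left _ _).trans_lt hb, ((le_max_right _ _).trans_lt hb).le⟩
    · intro a ⟨b, hb⟩ h
      obtain ⟨c, ⟨-, h2⟩, h3⟩ := h b hb
      exact h3.trans h2.le)
  have h2 : S = A δ := by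
    rw [← h1]
    exact (inter_eq_left.2 fun y hy => (hγ hy).trans_le hδ).symm
  have h3 : (δ : Sp (mkU A)) ∈ closure (X := Sp (mkU A)) (A δ) := by
    refine mem_closure_mkU A δ (hA.1 δ) ?_ δ le_rfl
    rw [← h2]
    intro F _
    obtain ⟨y, hy, h4⟩ := hc F
    exact ⟨y, hy, h4⟩
  rw [← h2, hS.closure_eq] at h3
  exact absurd (hγ h3) (not_lt.2 hδ)

end Pool.Agent.V8H79.NP
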