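import Mathlib
import Pool.Agent.V8H79.NP.Rec

/-!
# The space `K` (Ostaszewski type) and its product with its one-point compactification
-/

set_option autoImplicit false

namespace Pool.Agent.V8H79.NP

open Set Topology
open Pool.Agent.Helper292.ForceCH (Om ub lt_ub ub_le)
open Pool.Agent.Helper332.CPBTop

/-- the point `a` of the space -/
def pt (U : Om → Set Om) (a : Om) : Sp U := a

/-- the point `y` as a countable ordinal -/
def ht {U : Om → Set Om} (y : Sp U) : Om := y

/-- the properties of the system constructed from diamond -/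
structure Ost (U : Om → Set Om) : Prop where
  sys : IsSystem U
  unb : ∀ S : Set Om, (∀ a : Om, ∃ b ∈ S, a < b) →
    ∃ δ : Om, ∀ β : Om, δ ≤ β → pt U β ∈ closure (X := Sp U) ((S ∩ Iio δ : Set Om))
  bdd : ∀ S : Set Om, IsClosed (X := Sp U) S → ∀ γ : Om, S ⊆ Iio γ →
    ∃ F : Finset Om, ∀ y ∈ S, ∃ c ∈ F, y ∈ U c

theorem ost_mkU {A : Om → Set Om} (hA : Guess A) : Ost (mkU A) :=
  ⟨isSystem_mkU A, unbounded_closure hA, fun S hS γ hγ => bounded_closed hA S hS γ hγ⟩

section

variable {U : Om → Set Om}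

theorem Ost.t2 (h : Ost U) : T2Space (Sp U) := t2_Sp U h.sys

theorem Ost.wlc (h : Ost U) : WeaklyLocallyCompactSpace (Sp U) := lc_Sp U h.sys

theorem closed_bdd_compact (h : Ost U) (F : Set (Sp U)) (hF : IsClosed F) (γ : Om)
    (hγ : ∀ y ∈ F, ht y < γ) : IsCompact F := by
  obtain ⟨T, hT⟩ := h.bdd F hF γ hγ
  have h1 : IsCompact (X := Sp U) (⋃ c ∈ T, U c) :=
    T.isCompact_biUnion (X := Sp U) fun c _ => compact_U U h.sys c
  refine h1.of_isClosed_subset hF fun y hy => ?_
  obtain ⟨c, hc, h2⟩ := hT y hy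
  exact mem_iUnion₂.2 ⟨c, hc, h2⟩

theorem dich (h : Ost U) (F : Set (Sp U)) (hF : IsClosed F) :
    IsCompact F ∨ ∃ δ : Om, ∀ β : Om, δ ≤ β → pt U β ∈ F := by
  by_cases hb : ∃ γ : Om, ∀ y ∈ F, ht y < γ
  · obtain ⟨γ, hγ⟩ := hb
    exact Or.inl (closed_bdd_compact h F hF γ hγ)
  · push Not at hb
    obtain ⟨δ, hδ⟩ := h.unb F (fun a => by
      obtain ⟨b, hb1⟩ := exists_gt a
      obtain ⟨y, hy, h1⟩ := hb b
      exact ⟨y, hy, hb1.trans_le h1⟩)
    refine Or.inr ⟨δ, fun β hβ => ?_⟩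
    have h1 := hδ β hβ
    exact hF.closure_subset_iff.2 (fun y hy => hy.1) h1

theorem compact_bdd (h : Ost U) (C : Set (Sp U)) (hC : IsCompact C) :
    ∃ γ : Om, ∀ y ∈ C, ht y < γ := by
  obtain ⟨t, ht⟩ := hC.elim_finite_subcover (fun c : Om => (U c : Set (Sp U)))
    (fun c => isOpen_U U c) (fun y _ => mem_iUnion.2 ⟨ht y, h.sys.1 (ht y)⟩)
  obtain ⟨M, hM⟩ := t.exists_le
  obtain ⟨γ, hγ⟩ := exists_gt M
  refine ⟨γ, fun y hy => ?_⟩
  obtain ⟨c, hc, h1⟩ := mem_iUnion₂.1 (ht hy)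
  exact ((h.sys.2.1 c y h1).trans (hM c hc)).trans_lt hγ

theorem normal_Sp (h : Ost U) : NormalSpace (Sp U) := by
  have := h.t2
  have := h.wlc
  refine ⟨fun F G hF hG hd => ?_⟩
  rcases dich h F hF with h1 | ⟨δ, hδ⟩
  · exact SeparatedNhds.of_isCompact_isClosed h1 hG hd
  · rcases dich h G hG with h2 | ⟨δ', hδ'⟩
    · exact (SeparatedNhds.of_isCompact_isClosed h2 hF hd.symm).symm
    · exact (disjoint_left.1 hd (hδ (max δ δ') (le_max_left _ _))
        (hδ' (max δ δ') (le_max_right _ _))).elim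

/-- A countable open cover has a finite subcover. -/
theorem finite_subcover (h : Ost U) {ι : Type} [Countable ι] (V : ι → Set (Sp U))
    (hV : ∀ i, IsOpen (V i)) (hc : (⋃ i, V i) = univ) : ∃ t : Finset ι, (⋃ i ∈ t, V i) = univ := by
  classical
  by_cases h1 : ∃ i, IsCompact (V i)ᶜ
  · obtain ⟨i, hi⟩ := h1
    obtain ⟨t, ht⟩ := hi.elim_finite_subcover V hV (by rw [hc]; exact subset_univ _)
    refine ⟨insert i t, eq_univ_of_forall fun y => ?_⟩
    by_cases hy : y ∈ V i
    · exact mem_iUnion₂.2 ⟨i, Finset.mem_insert_self _ _, hy⟩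
    · obtain ⟨j, hj, h2⟩ := mem_iUnion₂.1 (ht hy)
      exact mem_iUnion₂.2 ⟨j, Finset.mem_insert_of_mem hj, h2⟩
  · exfalso
    push Not at h1
    have h2 : ∀ i, ∃ δ : Om, ∀ β : Om, δ ≤ β → pt U β ∉ V i := fun i => by
      rcases dich h (V i)ᶜ (hV i).isClosed_compl with h3 | ⟨δ, hδ⟩
      · exact (h1 i h3).elim
      · exact ⟨δ, hδ⟩
    choose δ hδ using h2
    have h3 : ∃ γ : Om, ∀ i, δ i < γ := by
      rcases isEmpty_or_nonempty ι with hι | hι
      · obtain ⟨a, -⟩ := exists_gt (Classical.arbitrary Om)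
        exact ⟨a, fun i => (hι.false i).elim⟩
      · obtain ⟨g, hg⟩ := exists_surjective_nat ι
        obtain ⟨γ, hγ⟩ := Pool.Agent.Helper292.ForceCH.exists_bound fun n => δ (g n)
        refine ⟨γ, fun i => ?_⟩
        obtain ⟨n, rfl⟩ := hg i
        exact hγ n
    obtain ⟨γ, hγ⟩ := h3
    have h4 : pt U γ ∈ ⋃ i, V i := by
      rw [hc]
      exact mem_univ _
    obtain ⟨i, hi⟩ := mem_iUnion.1 h4
    exact hδ i γ (hγ i).le hi

/-- Discrete families of closed sets are separated. -/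
theorem cwn_Sp (h : Ost U) {ι : Type} (F : ι → Set (Sp U)) (hF : ∀ i, IsClosed (F i))
    (hd : ∀ x : Sp U, ∃ W ∈ 𝓝 x, ∀ i j, (W ∩ F i).Nonempty → (W ∩ F j).Nonempty → i = j) :
    ∃ V : ι → Set (Sp U), (∀ i, IsOpen (V i)) ∧ (∀ i, F i ⊆ V i) ∧
      Pairwise (Function.onFun Disjoint V) := by
  classical
  have := h.t2
  have := h.wlc
  have hN := normal_Sp h
  have hdis : ∀ i j, i ≠ j → Disjoint (F i) (F j) := fun i j hij => by
    rw [disjoint_left]
    intro x hx hx'
    obtain ⟨W, hW, h1⟩ := hd x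
    exact hij (h1 i j ⟨x, mem_of_mem_nhds hW, hx⟩ ⟨x, mem_of_mem_nhds hW, hx'⟩)
  -- only finitely many members are nonempty
  have hfin : {i | (F i).Nonempty}.Finite := by
    by_contra hinf
    have hinf : {i | (F i).Nonempty}.Infinite := hinf
    let f : ℕ → {i | (F i).Nonempty} := hinf.natEmbedding
    have hf : Function.Injective f := (hinf.natEmbedding).injective
    choose x hx using fun n => (f n).2
    have hxinj : Function.Injective x := by
      intro m n hmn
      by_contra hne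
      have h1 : (f m).1 ≠ (f n).1 := fun h2 => hne (hf (Subtype.ext h2))
      exact disjoint_left.1 (hdis _ _ h1) (hx m) (by rw [hmn]; exact hx n)
    have hW : ∀ y : Sp U, ∃ W ∈ 𝓝 y, {n | x n ∈ W}.Subsingleton := by
      intro y
      obtain ⟨W, hW, h1⟩ := hd y
      refine ⟨W, hW, fun m hm n hn => ?_⟩
      have h2 := h1 (f m).1 (f n).1 ⟨x m, hm, hx m⟩ ⟨x n, hn, hx n⟩
      exact hf (Subtype.ext h2)
    have hcl : IsClosed (range x) := by
      rw [← isOpen_compl_iff, isOpen_iff_mem_nhds]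
      intro y hy
      obtain ⟨W, hW1, hW2⟩ := hW y
      rcases {n | x n ∈ W}.eq_empty_or_nonempty with h3 | ⟨n, hn⟩
      · refine Filter.mem_of_superset hW1 fun z hz => ?_
        rintro ⟨m, rfl⟩
        have : m ∈ {n | x n ∈ W} := hz
        rw [h3] at this
        exact this
      · have h4 : y ≠ x n := fun h5 => hy ⟨n, h5.symm⟩
        refine Filter.mem_of_superset (Filter.inter_mem hW1
          (isOpen_compl_singleton.mem_nhds (show y ∈ ({x n}ᶜ : Set (Sp U)) from h4))) fun z hz => ?_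
        rintro ⟨m, rfl⟩
        have h6 := hW2 (show m ∈ {n | x n ∈ W} from hz.1) hn
        exact hz.2 (by rw [h6]; rfl)
    obtain ⟨γ, hγ⟩ := Pool.Agent.Helper292.ForceCH.exists_bound fun n => ht (x n)
    have hcpt : IsCompact (range x) := closed_bdd_compact h _ hcl γ (by
      rintro _ ⟨n, rfl⟩
      exact hγ n)
    choose W hW1 hW2 using hW
    obtain ⟨t, ht⟩ := hcpt.elim_nhds_subcover W fun y _ => hW1 y
    have hcov : (univ : Set ℕ) ⊆ ⋃ y ∈ t, {n | x n ∈ W y} := by
      intro n _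
      obtain ⟨y, hy, h1⟩ := mem_iUnion₂.1 (ht.2 (mem_range_self n))
      exact mem_iUnion₂.2 ⟨y, hy, h1⟩
    have hfin2 : (⋃ y ∈ t, {n | x n ∈ W y}).Finite :=
      t.finite_toSet.biUnion fun y _ => (hW2 y).finite
    exact Set.infinite_univ (hfin2.subset hcov)
  -- separate each member from the union of the others
  have hsep : ∀ i, ∃ A B : Set (Sp U), IsOpen A ∧ IsOpen B ∧ F i ⊆ A ∧
      (∀ j, j ≠ i → F j ⊆ B) ∧ Disjoint A B := by
    intro i
    have hcl : IsClosed (⋃ j ∈ {j | (F j).Nonempty} \ {i}, F j) :=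
      (hfin.subset sdiff_subset).isClosed_biUnion fun j _ => hF j
    have hdj : Disjoint (F i) (⋃ j ∈ {j | (F j).Nonempty} \ {i}, F j) := by
      rw [disjoint_iUnion₂_right]
      intro j hj
      exact hdis i j fun h1 => hj.2 h1.symm
    obtain ⟨A, B, hA, hB, h1, h2, h3⟩ := hN.normal (F i) _ (hF i) hcl hdj
    refine ⟨A, B, hA, hB, h1, fun j hj => ?_, h3⟩
    rcases (F j).eq_empty_or_nonempty with h4 | h4
    · rw [h4]
      exact empty_subset _
    · exact (subset_biUnion_of_mem (u := fun j => F j)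
        (show j ∈ {j | (F j).Nonempty} \ {i} from ⟨h4, hj⟩)).trans h2
  choose A B hA hB hFA hFB hAB using hsep
  refine ⟨fun i => if (F i).Nonempty then A i ∩ ⋂ j ∈ hfin.toFinset.erase i, B j else ∅,
    fun i => ?_, fun i => ?_, fun i j hij => ?_⟩
  · dsimp only
    split_ifs
    · exact (hA i).inter (isOpen_biInter_finset fun j _ => hB j)
    · exact isOpen_empty
  · dsimp only
    split_ifs with h1
    · refine subset_inter (hFA i) (subset_iInter₂ fun j hj => hFB j i ?_)
      exact (Finset.ne_of_mem_erase hj).symm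
    · rw [Set.not_nonempty_iff_eq_empty.1 h1]
  · change Disjoint (if (F i).Nonempty then A i ∩ ⋂ j ∈ hfin.toFinset.erase i, B j else ∅)
      (if (F j).Nonempty then A j ∩ ⋂ k ∈ hfin.toFinset.erase j, B k else ∅)
    by_cases h1 : (F i).Nonempty
    · by_cases h2 : (F j).Nonempty
      · rw [if_pos h1, if_pos h2, disjoint_left]
        intro x hx hx'
        have h3 : x ∈ B i := mem_iInter₂.1 hx'.2 i (Finset.mem_erase.2 ⟨hij, by simpa using h1⟩)
        exact disjoint_left.1 (hAB i) hx.1 h3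
      · rw [if_neg h2]
        exact disjoint_empty _
    · rw [if_neg h1]
      exact empty_disjoint _

/-- `K × αK` is not normal. -/
theorem not_normal_prod (h : Ost U) : ¬ NormalSpace (Sp U × OnePoint (Sp U)) := by
  have := h.t2
  have := h.wlc
  intro hN
  let F : Set (Sp U × OnePoint (Sp U)) := {z | z.2 = (z.1 : OnePoint (Sp U))}
  let G : Set (Sp U × OnePoint (Sp U)) := {z | z.2 = OnePoint.infty}
  have hF : IsClosed F := isClosed_eq continuous_snd (OnePoint.continuous_coe.comp continuous_fst)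
  have hG : IsClosed G := isClosed_eq continuous_snd continuous_const
  have hFG : Disjoint F G := by
    rw [disjoint_left]
    rintro ⟨x, y⟩ (h1 : y = (x : OnePoint (Sp U))) (h2 : y = OnePoint.infty)
    rw [h1] at h2
    exact OnePoint.coe_ne_infty _ h2
  obtain ⟨O, O', hO, hO', h1, h2, h3⟩ := hN.normal F G hF hG hFG
  -- the sections of `O` are bounded
  have h4 : ∀ x : Sp U, ∃ γ : Om, ∀ y : Sp U, (x, (y : OnePoint (Sp U))) ∈ O → ht y < γ := by
    intro x
    let s : Set (OnePoint (Sp U)) := {c | (x, c) ∈ O'}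
    have hs : IsOpen s := hO'.preimage (Continuous.prodMk_right x)
    have hs' : OnePoint.infty ∈ s := h2 (show (x, (OnePoint.infty : OnePoint (Sp U))) ∈ G from rfl)
    have h5 := (OnePoint.isOpen_iff_of_mem hs').1 hs
    obtain ⟨γ, hγ⟩ := compact_bdd h _ h5.2
    refine ⟨γ, fun y hy => hγ y fun h6 => ?_⟩
    exact disjoint_left.1 h3 hy h6
  choose g hg using h4
  obtain ⟨δ, hδ⟩ := h.unb univ (fun a => by
    obtain ⟨b, hb⟩ := exists_gt a
    exact ⟨b, mem_univ _, hb⟩)
  have h5 : ∀ β : Om, δ ≤ β → ∃ d : Om, d < δ ∧ β < g (pt U d) := by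
    intro β hβ
    have h6 : (pt U β, ((pt U β : Sp U) : OnePoint (Sp U))) ∈ O :=
      h1 (show (pt U β, ((pt U β : Sp U) : OnePoint (Sp U))) ∈ F from rfl)
    have h7 : {x : Sp U | (x, ((pt U β : Sp U) : OnePoint (Sp U))) ∈ O} ∈ 𝓝 (pt U β) :=
      (hO.preimage (Continuous.prodMk_left _)).mem_nhds h6
    obtain ⟨d, hd1, hd2⟩ := mem_closure_iff_nhds.1 (hδ β hβ) _ h7
    exact ⟨ht d, hd2.2, hg d (pt U β) hd1⟩
  have h8 : ∃ γ : Om, ∀ d < δ, g (pt U d) < γ := by
    obtain ⟨b, hb⟩ | hn : (∃ b, b < δ) ∨ ¬ ∃ b, b < δ := Classical.em _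
    · obtain ⟨e, he⟩ := (cnt_Iio δ).exists_eq_range ⟨b, hb⟩
      obtain ⟨γ, hγ⟩ := Pool.Agent.Helper292.ForceCH.exists_bound fun n => g (pt U (e n))
      refine ⟨γ, fun d hd => ?_⟩
      have : d ∈ range e := by
        rw [← he]
        exact hd
      obtain ⟨n, rfl⟩ := this
      exact hγ n
    · exact ⟨δ, fun d hd => (hn ⟨d, hd⟩).elim⟩
  obtain ⟨γ, hγ⟩ := h8
  obtain ⟨d, hd, h9⟩ := h5 (max δ γ) (le_max_left _ _)
  exact absurd ((le_max_right δ γ).trans_lt h9) (not_lt.2 (hγ d hd).le)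

/-- Countable tightness of the one-point compactification. -/
theorem tight (h : Ost U) (B : Set (OnePoint (Sp U))) (p : OnePoint (Sp U)) (hp : p ∈ closure B) :
    ∃ B' ⊆ B, B'.Countable ∧ p ∈ closure B' := by
  have := h.t2
  have := h.wlc
  by_cases hpi : p = OnePoint.infty
  · subst hpi
    by_cases hB : (OnePoint.infty : OnePoint (Sp U)) ∈ B
    · exact ⟨{OnePoint.infty}, singleton_subset_iff.2 hB, countable_singleton _,
        subset_closure rfl⟩
    let B0 : Set (Sp U) := {x | (x : OnePoint (Sp U)) ∈ B}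
    have hB0 : ∀ z ∈ B, ∃ x ∈ B0, (x : OnePoint (Sp U)) = z := by
      intro z hz
      induction z using OnePoint.rec with
      | infty => exact (hB hz).elim
      | coe x => exact ⟨x, hz, rfl⟩
    by_cases hb : ∃ γ : Om, ∀ y ∈ B0, ht y < γ
    · obtain ⟨γ, hγ⟩ := hb
      have h1 : B0.Countable := (cnt_Iio γ).mono hγ
      refine ⟨B, subset_rfl, ((h1.image fun x => (x : OnePoint (Sp U))).mono ?_), hp⟩
      intro z hz
      obtain ⟨x, hx, h2⟩ := hB0 z hz
      exact ⟨x, hx, h2⟩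
    · push Not at hb
      obtain ⟨δ, hδ⟩ := h.unb B0 (fun a => by
        obtain ⟨b, hb1⟩ := exists_gt a
        obtain ⟨y, hy, h1⟩ := hb b
        exact ⟨y, hy, hb1.trans_le h1⟩)
      refine ⟨(fun x : Sp U => (x : OnePoint (Sp U))) '' (B0 ∩ Iio δ : Set Om), ?_, ?_, ?_⟩
      · rintro _ ⟨x, hx, rfl⟩
        exact hx.1
      · exact ((cnt_Iio δ).mono inter_subset_right).image _
      · rw [mem_closure_iff]
        intro O hO hO'
        have h5 := (OnePoint.isOpen_iff_of_mem hO').1 hO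
        obtain ⟨γ, hγ⟩ := compact_bdd h _ h5.2
        have h6 : (pt U (max δ γ)) ∈ (fun x : Sp U => (x : OnePoint (Sp U))) ⁻¹' O := by
          by_contra h7
          exact absurd (hγ _ h7) (not_lt.2 (le_max_right _ _))
        have h8 : (fun x : Sp U => (x : OnePoint (Sp U))) ⁻¹' O ∈ 𝓝 (pt U (max δ γ)) :=
          (hO.preimage OnePoint.continuous_coe).mem_nhds h6
        obtain ⟨d, hd1, hd2⟩ := mem_closure_iff_nhds.1 (hδ (max δ γ) (le_max_left _ _)) _ h8
        exact ⟨_, hd1, ⟨d, hd2, rfl⟩⟩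
  · induction p using OnePoint.rec with
    | infty => exact (hpi rfl).elim
    | coe x =>
      have hO : IsOpen ((fun x : Sp U => (x : OnePoint (Sp U))) '' (U x)) :=
        OnePoint.isOpen_image_coe.2 (isOpen_U U x)
      refine ⟨B ∩ (fun x : Sp U => (x : OnePoint (Sp U))) '' (U x), inter_subset_left, ?_, ?_⟩
      · refine Countable.mono inter_subset_right (Countable.image ?_ _)
        exact (cnt_Iic (ht x)).mono fun y hy => h.sys.2.1 x y hy
      · rw [mem_closure_iff]
        intro O hO1 hxO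
        obtain ⟨z, hz1, hz2⟩ := mem_closure_iff.1 hp _ (hO1.inter hO) ⟨hxO, ⟨x, h.sys.1 x, rfl⟩⟩
        exact ⟨z, hz1.1, hz2, hz1.2⟩

end

end Pool.Agent.V8H79.NP
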