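import Mathlib
import Pool.Agent.V8H79.NP.Top

/-!
# The ordinal space `ω₁` and its product with a countably tight compact space
-/

set_option autoImplicit false

namespace Pool.Agent.V8H79.NP

open Set Topology
open Pool.Agent.Helper292.ForceCH (Om ub lt_ub ub_le)
open Pool.Agent.Helper332.CPBTop

/-- the initial segments; `Sp II` is the space of the countable ordinals -/
def II : Om → Set Om := fun a => Iic a

theorem isSystem_II : IsSystem II := by
  refine ⟨fun a => (le_rfl : a ≤ a), fun a y hy => hy, fun a b hab => ⟨∅, by simp, fun _ y hy hy' => ?_,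
    fun h => ?_⟩⟩
  · exact (hy' (le_trans hy hab.le)).elim
  · exact (h hab.le).elim

/-- The product of `ω₁` with a compact space of countable tightness is normal. -/
theorem normal_omega {C : Type} [TopologicalSpace C] [CompactSpace C] [T2Space C]
    (htg : ∀ (B : Set C) (p : C), p ∈ closure B → ∃ B' ⊆ B, B'.Countable ∧ p ∈ closure B') :
    NormalSpace (Sp II × C) := by
  classical
  have := t2_Sp II isSystem_II
  refine ⟨fun F G hF hG hd => ?_⟩
  -- the part of a closed set beyond `γ`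
  let tl : Set (Sp II × C) → Om → Set C := fun E γ => {y | ∃ x : Om, γ < x ∧ (pt II x, y) ∈ E}
  have htl : ∀ (E : Set (Sp II × C)) (γ γ' : Om), γ ≤ γ' → tl E γ' ⊆ tl E γ := by
    rintro E γ γ' h y ⟨x, hx, hy⟩
    exact ⟨x, h.trans_lt hx, hy⟩
  have htl' : ∀ (E : Set (Sp II × C)) (γ : Om) (x : Sp II) (y : C), ¬ ht x ≤ γ → (x, y) ∈ E →
      y ∈ tl E γ := fun E γ x y h1 h2 => ⟨ht x, not_le.1 h1, h2⟩
  have h1 : ∃ γ : Om, Disjoint (closure (tl F γ)) (closure (tl G γ)) := by
    by_contra hc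
    push Not at hc
    have hne : ∀ γ, (closure (tl F γ) ∩ closure (tl G γ)).Nonempty := fun γ =>
      not_disjoint_iff_nonempty_inter.1 (hc γ)
    obtain ⟨p, hp⟩ := IsCompact.nonempty_iInter_of_directed_nonempty_isCompact_isClosed
      (fun γ : Om => closure (tl F γ) ∩ closure (tl G γ))
      (fun γ γ' => ⟨max γ γ', inter_subset_inter
          (closure_mono (htl F _ _ (le_max_left _ _))) (closure_mono (htl G _ _ (le_max_left _ _))),
        inter_subset_inter (closure_mono (htl F _ _ (le_max_right _ _)))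
          (closure_mono (htl G _ _ (le_max_right _ _)))⟩)
      hne (fun γ => (isClosed_closure.inter isClosed_closure).isCompact)
      (fun γ => isClosed_closure.inter isClosed_closure)
    rw [mem_iInter] at hp
    -- bounded pieces suffice
    have h2 : ∀ (E : Set (Sp II × C)), (∀ γ, p ∈ closure (tl E γ)) → ∀ γ : Om, ∃ γ' : Om,
        p ∈ closure {y | ∃ x : Om, γ < x ∧ x < γ' ∧ (pt II x, y) ∈ E} := by
      intro E hE γ
      obtain ⟨B', hB1, hB2, hB3⟩ := htg _ _ (hE γ)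
      have hB1' : ∀ y ∈ B', ∃ x : Om, γ < x ∧ (pt II x, y) ∈ E := fun y hy => hB1 hy
      choose! x hx1 hx2 using hB1'
      have hb : ∃ γ' : Om, ∀ y ∈ B', x y < γ' := by
        rcases B'.eq_empty_or_nonempty with rfl | hne
        · exact ⟨γ, by simp⟩
        · obtain ⟨e, rfl⟩ := hB2.exists_eq_range hne
          obtain ⟨γ', hγ'⟩ := Pool.Agent.Helper292.ForceCH.exists_bound fun n => x (e n)
          exact ⟨γ', by rintro _ ⟨n, rfl⟩; exact hγ' n⟩
      obtain ⟨γ', hγ'⟩ := hb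
      refine ⟨γ', closure_mono ?_ hB3⟩
      intro y hy
      exact ⟨x y, hx1 y hy, hγ' y hy, hx2 y hy⟩
    have h3 : ∀ γ : Om, ∃ γ' : Om, γ < γ' ∧
        p ∈ closure {y | ∃ x : Om, γ < x ∧ x < γ' ∧ (pt II x, y) ∈ F} ∧
        p ∈ closure {y | ∃ x : Om, γ < x ∧ x < γ' ∧ (pt II x, y) ∈ G} := by
      intro γ
      obtain ⟨γ1, h4⟩ := h2 F (fun γ => (hp γ).1) γ
      obtain ⟨γ2, h5⟩ := h2 G (fun γ => (hp γ).2) γ
      obtain ⟨γ3, h6⟩ := exists_gt (max γ (max γ1 γ2))
      refine ⟨γ3, (le_max_left _ _).trans_lt h6, closure_mono ?_ h4, closure_mono ?_ h5⟩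
      · rintro y ⟨x, hx1, hx2, hx3⟩
        exact ⟨x, hx1, hx2.trans (((le_max_left _ _).trans (le_max_right _ _)).trans_lt h6), hx3⟩
      · rintro y ⟨x, hx1, hx2, hx3⟩
        exact ⟨x, hx1, hx2.trans (((le_max_right _ _).trans (le_max_right _ _)).trans_lt h6), hx3⟩
    choose nx hnx1 hnx2 hnx3 using h3
    let s : ℕ → Om := fun n => Nat.rec (Classical.arbitrary Om) (fun _ x => nx x) n
    have hs : ∀ n, s (n + 1) = nx (s n) := fun n => rfl
    have key : ∀ E : Set (Sp II × C), IsClosed E →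
        (∀ γ, p ∈ closure {y | ∃ x : Om, γ < x ∧ x < nx γ ∧ (pt II x, y) ∈ E}) →
        (pt II (ub s), p) ∈ E := by
      intro E hE hE'
      rw [← hE.closure_eq, mem_closure_iff]
      intro O hO hp'
      obtain ⟨O1, O2, hO1, hO2, h4, h5, h6⟩ := isOpen_prod_iff.1 hO _ _ hp'
      obtain ⟨T, hT1, hT2⟩ := nhd_basis II isSystem_II O1 hO1 (ub s) h4
      have h7 : ∃ n, ∀ c ∈ T, c ≤ s n := by
        rcases T.eq_empty_or_nonempty with rfl | hne
        · exact ⟨0, by simp⟩
        · obtain ⟨n, hn⟩ := ub_le s (hT1 _ (T.max'_mem hne))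
          exact ⟨n, fun c hc => (T.le_max' c hc).trans hn⟩
      obtain ⟨n, hn⟩ := h7
      obtain ⟨y, hy1, x, hx1, hx2, hx3⟩ := mem_closure_iff.1 (hE' (s n)) O2 hO2 h5
      refine ⟨(pt II x, y), h6 ⟨?_, hy1⟩, hx3⟩
      refine hT2 x ?_ fun c hc hxc => ?_
      · have h8 : x < s (n + 1) := by
          rw [hs]
          exact hx2
        exact (h8.trans (lt_ub s (n + 1))).le
      · exact absurd (hx1.trans_le hxc) (not_lt.2 (hn c hc))
    exact disjoint_left.1 hd (key F hF hnx2) (key G hG hnx3)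
  obtain ⟨γ, hγ⟩ := h1
  obtain ⟨N1, N2, hN1, hN2, hF1, hG1, hN⟩ :=
    SeparatedNhds.of_isCompact_isCompact isClosed_closure.isCompact isClosed_closure.isCompact hγ
  let S : Set (Sp II × C) := {z | z.1 ∈ (II γ : Set Om)}
  have hSo : IsOpen S := (isOpen_U II γ).preimage continuous_fst
  have hSc : IsClosed S := (isClosed_U II γ).preimage continuous_fst
  have hS : IsCompact S := by
    have h2 : IsCompact ((show Set (Sp II) from II γ) ×ˢ (univ : Set C)) :=
      (compact_U II isSystem_II γ).prod isCompact_univ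
    have h3 : S = (show Set (Sp II) from II γ) ×ˢ (univ : Set C) := by
      ext z
      exact ⟨fun hz => ⟨hz, mem_univ _⟩, fun hz => hz.1⟩
    rw [h3]
    exact h2
  obtain ⟨O1, O2, hO1, hO2, h4, h5, h6⟩ :=
    SeparatedNhds.of_isCompact_isCompact (hS.inter_right hF) (hS.inter_right hG)
      (hd.mono inter_subset_right inter_subset_right)
  refine ⟨(O1 ∩ S) ∪ (Sᶜ ∩ {z | z.2 ∈ N1}), (O2 ∩ S) ∪ (Sᶜ ∩ {z | z.2 ∈ N2}),
    (hO1.inter hSo).union (hSc.isOpen_compl.inter (hN1.preimage continuous_snd)),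
    (hO2.inter hSo).union (hSc.isOpen_compl.inter (hN2.preimage continuous_snd)), ?_, ?_, ?_⟩
  · rintro ⟨x, y⟩ hz
    by_cases h7 : (x, y) ∈ S
    · exact Or.inl ⟨h4 ⟨h7, hz⟩, h7⟩
    · exact Or.inr ⟨h7, hF1 (subset_closure (htl' F γ x y h7 hz))⟩
  · rintro ⟨x, y⟩ hz
    by_cases h7 : (x, y) ∈ S
    · exact Or.inl ⟨h5 ⟨h7, hz⟩, h7⟩
    · exact Or.inr ⟨h7, hG1 (subset_closure (htl' G γ x y h7 hz))⟩
  · rw [disjoint_left]
    rintro z (⟨h7, h8⟩ | ⟨h7, h8⟩) (⟨h9, h10⟩ | ⟨h9, h10⟩)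
    · exact disjoint_left.1 h6 h7 h9
    · exact h9 h8
    · exact h7 h10
    · exact disjoint_left.1 hN h8 h10

/-- The cover of `ω₁` by its initial segments has no locally finite open refinement. -/
theorem not_paracompact_omega (V : Om → Set (Sp II)) (hV : ∀ i, V i ⊆ II i)
    (hc : (⋃ i, V i) = univ) : ¬ LocallyFinite V := by
  intro hl
  have h1 : ∀ x : Om, ∃ i : Om, pt II x ∈ V i := fun x => by
    have : pt II x ∈ ⋃ i, V i := by
      rw [hc]
      exact mem_univ _
    exact mem_iUnion.1 this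
  choose i hi using h1
  have hle : ∀ x, x ≤ i x := fun x => hV (i x) (hi x)
  have h2 : ∀ x : Om, ∃ y : Om, i x < y := fun x => exists_gt _
  choose g hg using h2
  let s : ℕ → Om := fun n => Nat.rec (Classical.arbitrary Om) (fun _ x => g x) n
  have hs : ∀ n, i (s n) < s (n + 1) := fun n => hg (s n)
  have hmono : StrictMono fun n => i (s n) := strictMono_nat_of_lt_succ fun n =>
    (hs n).trans_le (hle _)
  have hsm : Monotone s := monotone_nat_of_le_succ fun n => (hle _).trans (hs n).le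
  obtain ⟨O, hO, hfin⟩ := hl (pt II (ub s))
  obtain ⟨O', hO'1, hO'2, hO'3⟩ := mem_nhds_iff.1 hO
  obtain ⟨T, hT1, hT2⟩ := nhd_basis II isSystem_II O' hO'2 (ub s) hO'3
  have h7 : ∃ n, ∀ c ∈ T, c < s n := by
    rcases T.eq_empty_or_nonempty with rfl | hne
    · exact ⟨0, by simp⟩
    · obtain ⟨n, hn⟩ := ub_le s (hT1 _ (T.max'_mem hne))
      exact ⟨n + 1, fun c hc => ((T.le_max' c hc).trans hn).trans_lt ((hle _).trans_lt (hs n))⟩
  obtain ⟨n, hn⟩ := h7
  have h8 : ∀ m, n ≤ m → i (s m) ∈ {j | (V j ∩ O).Nonempty} := by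
    intro m hm
    refine ⟨pt II (s m), hi _, hO'1 (hT2 (s m) (lt_ub s m).le fun c hc h9 => ?_)⟩
    exact absurd ((hn c hc).trans_le (hsm hm)) (not_lt.2 h9)
  have h9 : (Ici n).Infinite := Ici_infinite n
  exact h9 (Set.Finite.of_finite_image (hfin.subset (by
    rintro _ ⟨m, hm, rfl⟩
    exact h8 m hm)) (hmono.injective.injOn (s := Ici n)))

end Pool.Agent.V8H79.NP
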